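import Pool.Agent.Y490.HG.CircleLift

/-!
A normal subgroup of the Haefliger group, not normally generated by finitely many elements, none of
whose elements is represented by a transverse loop.
-/

set_option autoImplicit false

open Pool.Agent.Helper240 Pool.Agent.Y490.HG

namespace Pool.Agent.Results.MP_c87be1_gt.NormalSubgroupWithoutTransverse

theorem lift_of_homotopic {U : Type} [Group U] [TopologicalSpace U] [DiscreteTopology U]
    (L : LocSys U) {f g : C(Circle, BGamma)} (h : f.Homotopic g) (F : C(Circle, L.Tot))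
    (hF : ∀ z, (F z).proj = f z) : ∃ F' : C(Circle, L.Tot), ∀ z, (F' z).proj = g z := by
  obtain ⟨H⟩ := h
  have h0 : ∀ a, H.toContinuousMap (0, a) = L.core.proj (F a) := by
    intro a
    have : H (0, a) = f a := H.apply_zero a
    exact this.trans (hF a).symm
  refine ⟨⟨fun a => L.isCoveringMap.liftHomotopy H.toContinuousMap F h0 (1, a), ?_⟩, ?_⟩
  · exact (L.isCoveringMap.liftHomotopy H.toContinuousMap F h0).continuous.comp
      (Continuous.prodMk continuous_const continuous_id)
  · intro z
    have h1 := congrFun (L.isCoveringMap.liftHomotopy_lifts H.toContinuousMap F h0) (1, z)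
    have h2 : H (1, z) = g z := H.apply_one z
    exact h1.trans h2

/-- The normal closure of an infinite independent sequence is not the normal closure of a finite
set. -/
theorem not_fg {G : Type*} [Group G] (c : ℕ → G)
    (hc : ∀ (S : Set ℕ) (m : ℕ), c m ∈ Subgroup.normalClosure (c '' S) ↔ m ∈ S)
    (A : Set G) (hA : A.Finite) : Subgroup.normalClosure A ≠ Subgroup.normalClosure (Set.range c) := by
  intro h
  let M : ℕ → Subgroup G := fun k => Subgroup.normalClosure (c '' Set.Iio k)
  have hM : Monotone M := fun i j hij =>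
    Subgroup.normalClosure_mono (Set.image_mono (Set.Iio_subset_Iio hij))
  let K : Subgroup G :=
    { carrier := ⋃ k, (M k : Set G)
      mul_mem' := by
        intro x y hx hy
        obtain ⟨i, hi⟩ := Set.mem_iUnion.mp hx
        obtain ⟨j, hj⟩ := Set.mem_iUnion.mp hy
        exact Set.mem_iUnion.mpr ⟨max i j, (M (max i j)).mul_mem (hM (le_max_left i j) hi)
          (hM (le_max_right i j) hj)⟩
      one_mem' := Set.mem_iUnion.mpr ⟨0, (M 0).one_mem⟩
      inv_mem' := by
        intro x hx
        obtain ⟨i, hi⟩ := Set.mem_iUnion.mp hx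
        exact Set.mem_iUnion.mpr ⟨i, (M i).inv_mem hi⟩ }
  have hK : K.Normal := by
    refine ⟨fun x hx y => ?_⟩
    obtain ⟨i, hi⟩ := Set.mem_iUnion.mp hx
    exact Set.mem_iUnion.mpr ⟨i, (Subgroup.normalClosure_normal (s := c '' Set.Iio i)).conj_mem x hi y⟩
  have hle : Subgroup.normalClosure (Set.range c) ≤ K := by
    apply Subgroup.normalClosure_le_normal
    rintro _ ⟨n, rfl⟩
    exact Set.mem_iUnion.mpr ⟨n + 1, Subgroup.subset_normalClosure ⟨n, Nat.lt_succ_self n, rfl⟩⟩
  have hAK : ∀ a ∈ A, ∃ k, a ∈ M k := by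
    intro a ha
    have h1 : a ∈ Subgroup.normalClosure (Set.range c) := by
      rw [← h]; exact Subgroup.subset_normalClosure ha
    exact Set.mem_iUnion.mp (hle h1)
  have hbound : ∃ k, A ⊆ M k := by
    choose! k hk using hAK
    obtain ⟨B, hB⟩ := (hA.image k).bddAbove
    exact ⟨B, fun a ha => hM (hB ⟨a, ha, rfl⟩) (hk a ha)⟩
  obtain ⟨k, hk⟩ := hbound
  have h2 : Subgroup.normalClosure A ≤ M k := by
    haveI : (M k).Normal := Subgroup.normalClosure_normal
    exact Subgroup.normalClosure_le_normal hk
  have h3 : c k ∈ M k := by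
    apply h2
    rw [h]
    exact Subgroup.subset_normalClosure ⟨k, rfl⟩
  exact lt_irrefl k ((hc (Set.Iio k) k).mp h3)

/-- (1) There are homotopically non-trivial loops `f 0, f 1, …` in the classifying space, no two of
them freely homotopic, none of them freely homotopic to a transverse loop.

(2) For every base point `b` the Haefliger group `Γ = π₁(BΓ, b)` has a normal subgroup `N`, none of
whose elements is represented by a transverse loop, and which is large: `N` is the normal subgroup
of `Γ` generated by a sequence `c 0, c 1, …` such that no `c m` is in the normal subgroup of `Γ`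
generated by the others, and `N` is not the normal subgroup of `Γ` generated by any finite set. -/
theorem result :
    (∃ f : ℕ → C(Circle, BGamma), (∀ n, ¬ (f n).Nullhomotopic) ∧
      (∀ m n, m ≠ n → ¬ (f m).Homotopic (f n)) ∧
      ∀ n, ∀ g : C(Circle, BGamma), IsTransverse g → ¬ (f n).Homotopic g) ∧
    ∀ b : BGamma, ∃ (N : Subgroup (FundamentalGroup BGamma b))
      (c : ℕ → FundamentalGroup BGamma b),
      N.Normal ∧ N ≠ ⊤ ∧ N ≠ ⊥ ∧ N = Subgroup.normalClosure (Set.range c) ∧
      (∀ (S : Set ℕ) (m : ℕ), c m ∈ Subgroup.normalClosure (c '' S) ↔ m ∈ S) ∧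
      (∀ A : Set (FundamentalGroup BGamma b), A.Finite → Subgroup.normalClosure A ≠ N) ∧
      ∀ x ∈ N, ∀ g : C(Circle, BGamma), IsTransverse g → ¬ Represents x g := by
  refine ⟨⟨fun n => powLoop (q n) (q_odd n), ?_, ?_, ?_⟩, ?_⟩
  · rintro n ⟨y, hy⟩
    let H : Subgroup ℚˣ := HS ∅
    let _ : TopologicalSpace (LineCalc.Univ (exPG H).lineCalc) := ⊥
    have _ : DiscreteTopology (LineCalc.Univ (exPG H).lineCalc) := ⟨rfl⟩
    let e : (exSys H).Tot := ⟨y, (1 : LineCalc.Univ (exPG H).lineCalc)⟩
    obtain ⟨F, hF⟩ := lift_of_homotopic (exSys H) hy.symm (ContinuousMap.const Circle e)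
      (fun z => rfl)
    exact of_HS_mem (q_prime n)
      (pow_not_lift_path (q_odd n) H (pathOfLift F) (fun _ => hF _) (pathOfLift_one F))
  · intro m n hmn h
    let H : Subgroup ℚˣ := HS {q m}
    let _ : TopologicalSpace (LineCalc.Univ (exPG H).lineCalc) := ⊥
    have _ : DiscreteTopology (LineCalc.Univ (exPG H).lineCalc) := ⟨rfl⟩
    obtain ⟨r, hr, hrl⟩ := HS_mem (T := {q m}) (q_prime m) rfl
    obtain ⟨F, hF, _⟩ := pow_lift (q_odd m) H hr hrl 1
    obtain ⟨F', hF'⟩ := lift_of_homotopic (exSys H) h F hF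
    have h1 := of_HS_mem (q_prime n)
      (pow_not_lift_path (q_odd n) H (pathOfLift F') (fun _ => hF' _) (pathOfLift_one F'))
    exact hmn (q_injective h1).symm
  · intro n g hg h
    let H : Subgroup ℚˣ := HS {q n}
    let _ : TopologicalSpace (LineCalc.Univ (exPG H).lineCalc) := ⊥
    have _ : DiscreteTopology (LineCalc.Univ (exPG H).lineCalc) := ⟨rfl⟩
    obtain ⟨r, hr, hrl⟩ := HS_mem (T := {q n}) (q_prime n) rfl
    obtain ⟨F, hF, _⟩ := pow_lift (q_odd n) H hr hrl 1
    obtain ⟨F', hF'⟩ := lift_of_homotopic (exSys H) h F hF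
    exact not_lift_of_transverse (exPG H) (exPG_of H) g hg F' hF'
  · intro b
    obtain ⟨c, _, hc⟩ := main2 b
    have key : ∀ (S : Set ℕ) (m : ℕ), c m ∈ Subgroup.normalClosure (c '' S) ↔ m ∈ S := by
      intro S m
      obtain ⟨N, hN, _, hN2, _⟩ := hc S
      have hle : Subgroup.normalClosure (c '' S) ≤ N := by
        apply Subgroup.normalClosure_le_normal
        rintro _ ⟨m, hm, rfl⟩
        exact (hN2 m).mpr hm
      exact ⟨fun h => (hN2 m).mp (hle h), fun h => Subgroup.subset_normalClosure ⟨m, h, rfl⟩⟩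
    obtain ⟨N, hN, hN1, hN2, hN3⟩ := hc Set.univ
    have hle : Subgroup.normalClosure (Set.range c) ≤ N := by
      apply Subgroup.normalClosure_le_normal
      rintro _ ⟨m, rfl⟩
      exact (hN2 m).mpr trivial
    refine ⟨Subgroup.normalClosure (Set.range c), c, Subgroup.normalClosure_normal,
      fun h => hN1 (top_le_iff.mp (h ▸ hle)), ?_, rfl, key, not_fg c key,
      fun x hx => hN3 x (hle hx)⟩
    intro h
    have h0 := not_fg c key ∅ Set.finite_empty
    apply h0
    rw [h]
    exact Subgroup.normalClosure_empty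

end Pool.Agent.Results.MP_c87be1_gt.NormalSubgroupWithoutTransverse
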